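import Pool.Agent.Helper20.HP.Dinc
import Pool.Agent.Helper20.PC.MixSphere
import Pool.Agent.Helper81.HP.P1b

/-!
MP_4e0d62_gt (HOPF project), piece BR2: the sectional curvature in charts is the sectional
curvature of the cylindrical extension.
-/

open Filter Metric Module Set
open scoped Topology ContDiff RealInnerProductSpace Manifold

set_option maxSynthPendingDepth 3

namespace Pool.Agent.Helper8.HP.BR2
open Pool.Agent.Helper20.PC Pool.Agent.Helper20.HP Pool.Agent.Helper81.HP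

/-! ### product with a line -/

section
variable {F : Type} [NormedAddCommGroup F] [NormedSpace ℝ F] [FiniteDimensional ℝ F]

/-- the product metric with a line. -/
noncomputable def line (G : F → F →L[ℝ] F →L[ℝ] ℝ) (z : F × ℝ) : (F × ℝ) →L[ℝ] (F × ℝ) →L[ℝ] ℝ :=
  (G z.1).bilinearComp (ContinuousLinearMap.fst ℝ F ℝ) (ContinuousLinearMap.fst ℝ F ℝ)
    + (ContinuousLinearMap.snd ℝ F ℝ).smulRight (ContinuousLinearMap.snd ℝ F ℝ)

omit [FiniteDimensional ℝ F] in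
lemma line_apply (G : F → F →L[ℝ] F →L[ℝ] ℝ) (z u v : F × ℝ) :
    line G z u v = G z.1 u.1 v.1 + u.2 * v.2 := by
  simp [line]

lemma metAt_line {G : F → F →L[ℝ] F →L[ℝ] ℝ} {z : F × ℝ} (h : MetAt G z.1) : MetAt (line G) z where
  smooth := by
    unfold line
    refine ContDiffAt.add ?_ contDiffAt_const
    exact contDiffAt_bilinearComp (h.smooth.comp z contDiffAt_fst) contDiffAt_const
  symm := by
    have := (continuous_fst (X := F) (Y := ℝ)).continuousAt (x := z) |>.eventually h.symm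
    filter_upwards [this] with z' a u v
    rw [line_apply, line_apply, a, mul_comm]
  pos := by
    have := (continuous_fst (X := F) (Y := ℝ)).continuousAt (x := z) |>.eventually h.pos
    filter_upwards [this] with z' a u hu
    rw [line_apply]
    by_cases h : u.1 = 0
    · have h2 : u.2 ≠ 0 := fun h2 => hu (Prod.ext h h2)
      have := mul_self_pos.2 h2
      rw [h]
      simpa using h2
    · have c1 := a _ h
      have := mul_self_nonneg u.2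
      linarith

lemma num_line {G : F → F →L[ℝ] F →L[ℝ] ℝ} {z : F × ℝ} (h : MetAt G z.1)
    (u v : F) : num (line G) z (u, 0) (v, 0) = num G z.1 u v := by
  have h1 := num_submersion (G := line G) (G' := G) (φ := Prod.fst) (z := z)
    (β := fun _ => ContinuousLinearMap.snd ℝ F ℝ) contDiffAt_fst contDiffAt_const h (metAt_line h)
    (fun a' s => ⟨(a', s), by rw [fderiv_fst]; exact ⟨rfl, rfl⟩⟩)
    (Eventually.of_forall (fun w a b => by rw [line_apply, fderiv_fst]; rfl))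
    (u := (u, 0)) (v := (v, 0)) rfl rfl
  rw [h1, fderiv_fst]
  simp

end

/-! ### the product of two spheres -/

section
variable {E₁ E₂ : Type} [NormedAddCommGroup E₁] [InnerProductSpace ℝ E₁] [FiniteDimensional ℝ E₁]
  [NormedAddCommGroup E₂] [InnerProductSpace ℝ E₂] [FiniteDimensional ℝ E₂]
  {k l : ℕ} [Fact (finrank ℝ E₁ = k + 1)] [Fact (finrank ℝ E₂ = l + 1)]

/-- the inclusion. -/
def inc (q : sphere (0 : E₁) 1 × sphere (0 : E₂) 1) : E₁ × E₂ := ((q.1 : E₁), (q.2 : E₂))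

/-- the projection. -/
noncomputable def prj (p₀ : sphere (0 : E₁) 1 × sphere (0 : E₂) 1) (z : E₁ × E₂) :
    sphere (0 : E₁) 1 × sphere (0 : E₂) 1 := (toS p₀.1 z.1, toS p₀.2 z.2)

omit [FiniteDimensional ℝ E₁] [FiniteDimensional ℝ E₂] in
lemma prj_inc (p₀ q : sphere (0 : E₁) 1 × sphere (0 : E₂) 1) : prj p₀ (inc q) = q :=
  Prod.ext (toS_self _ _) (toS_self _ _)

omit [FiniteDimensional ℝ E₁] [FiniteDimensional ℝ E₂] in
lemma inc_prj (p₀ : sphere (0 : E₁) 1 × sphere (0 : E₂) 1) {z : E₁ × E₂} (h1 : z.1 ≠ 0)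
    (h2 : z.2 ≠ 0) : inc (prj p₀ z) = nrm z := by
  rw [inc, prj, nrm, toS_val _ h1, toS_val _ h2]

omit [FiniteDimensional ℝ E₁] [FiniteDimensional ℝ E₂] in
lemma contMDiff_inc : ContMDiff ((𝓡 k).prod (𝓡 l)) 𝓘(ℝ, E₁ × E₂) ∞
    (inc : sphere (0 : E₁) 1 × sphere (0 : E₂) 1 → E₁ × E₂) :=
  (contMDiff_coe_sphere.comp contMDiff_fst).prodMk_space (contMDiff_coe_sphere.comp contMDiff_snd)

lemma contMDiffAt_prj (p₀ : sphere (0 : E₁) 1 × sphere (0 : E₂) 1) {z : E₁ × E₂} (h1 : z.1 ≠ 0)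
    (h2 : z.2 ≠ 0) : ContMDiffAt 𝓘(ℝ, E₁ × E₂) ((𝓡 k).prod (𝓡 l)) ∞ (prj p₀) z := by
  have a1 : ContMDiffAt 𝓘(ℝ, E₁ × E₂) (𝓡 k) ∞ (fun z : E₁ × E₂ => toS p₀.1 z.1) z :=
    (contMDiffAt_toS p₀.1 h1).comp (I' := 𝓘(ℝ, E₁)) z
      (contMDiffAt_iff_contDiffAt.2 contDiffAt_fst)
  have a2 : ContMDiffAt 𝓘(ℝ, E₁ × E₂) (𝓡 l) ∞ (fun z : E₁ × E₂ => toS p₀.2 z.2) z :=
    (contMDiffAt_toS p₀.2 h2).comp (I' := 𝓘(ℝ, E₂)) z
      (contMDiffAt_iff_contDiffAt.2 contDiffAt_snd)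
  exact a1.prodMk a2

omit [FiniteDimensional ℝ E₁] [FiniteDimensional ℝ E₂] in
lemma dinc_eq (p : sphere (0 : E₁) 1 × sphere (0 : E₂) 1) :
    dinc (k := k) (l := l) p = mfderiv ((𝓡 k).prod (𝓡 l)) 𝓘(ℝ, E₁ × E₂) inc p := rfl

/-- the parametrisation of the product of spheres in the preferred chart. -/
noncomputable def par (k l : ℕ) [Fact (finrank ℝ E₁ = k + 1)] [Fact (finrank ℝ E₂ = l + 1)]
    (p : sphere (0 : E₁) 1 × sphere (0 : E₂) 1)
    (y : EuclideanSpace ℝ (Fin k) × EuclideanSpace ℝ (Fin l)) : E₁ × E₂ :=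
  inc ((extChartAt ((𝓡 k).prod (𝓡 l)) p).symm y)

omit [FiniteDimensional ℝ E₁] [FiniteDimensional ℝ E₂] in
lemma contMDiffAt_symm (p : sphere (0 : E₁) 1 × sphere (0 : E₂) 1)
    {y : EuclideanSpace ℝ (Fin k) × EuclideanSpace ℝ (Fin l)}
    (hy : y ∈ (extChartAt ((𝓡 k).prod (𝓡 l)) p).target) :
    ContMDiffAt 𝓘(ℝ, EuclideanSpace ℝ (Fin k) × EuclideanSpace ℝ (Fin l)) ((𝓡 k).prod (𝓡 l)) ∞
      (extChartAt ((𝓡 k).prod (𝓡 l)) p).symm y :=
  (contMDiffOn_extChartAt_symm p).contMDiffAt ((isOpen_extChartAt_target p).mem_nhds hy)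

omit [FiniteDimensional ℝ E₁] [FiniteDimensional ℝ E₂] in
lemma contDiffAt_par (p : sphere (0 : E₁) 1 × sphere (0 : E₂) 1)
    {y : EuclideanSpace ℝ (Fin k) × EuclideanSpace ℝ (Fin l)}
    (hy : y ∈ (extChartAt ((𝓡 k).prod (𝓡 l)) p).target) : ContDiffAt ℝ ∞ (par k l p) y :=
  contMDiffAt_iff_contDiffAt.1 (contMDiff_inc.contMDiffAt.comp y (contMDiffAt_symm p hy))

omit [FiniteDimensional ℝ E₁] [FiniteDimensional ℝ E₂] in
lemma fderiv_par (p : sphere (0 : E₁) 1 × sphere (0 : E₂) 1)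
    {y : EuclideanSpace ℝ (Fin k) × EuclideanSpace ℝ (Fin l)}
    (hy : y ∈ (extChartAt ((𝓡 k).prod (𝓡 l)) p).target)
    (a : EuclideanSpace ℝ (Fin k) × EuclideanSpace ℝ (Fin l)) :
    fderiv ℝ (par k l p) y a = dinc ((extChartAt ((𝓡 k).prod (𝓡 l)) p).symm y)
      (mfderiv 𝓘(ℝ, EuclideanSpace ℝ (Fin k) × EuclideanSpace ℝ (Fin l)) ((𝓡 k).prod (𝓡 l))
        (extChartAt ((𝓡 k).prod (𝓡 l)) p).symm y a) := by
  have h1 := mfderiv_comp (I := 𝓘(ℝ, EuclideanSpace ℝ (Fin k) × EuclideanSpace ℝ (Fin l)))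
    (I' := (𝓡 k).prod (𝓡 l)) (I'' := 𝓘(ℝ, E₁ × E₂)) y
    ((contMDiff_inc (k := k) (l := l) (E₁ := E₁) (E₂ := E₂)).contMDiffAt.mdifferentiableAt (by simp))
    ((contMDiffAt_symm (k := k) (l := l) p hy).mdifferentiableAt (by simp))
  rw [mfderiv_eq_fderiv] at h1
  exact DFunLike.congr_fun h1 a

/-- the chart, extended to a neighbourhood of the product of spheres. -/
noncomputable def cht (k l : ℕ) [Fact (finrank ℝ E₁ = k + 1)] [Fact (finrank ℝ E₂ = l + 1)]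
    (p : sphere (0 : E₁) 1 × sphere (0 : E₂) 1) (w : E₁ × E₂) :
    EuclideanSpace ℝ (Fin k) × EuclideanSpace ℝ (Fin l) :=
  extChartAt ((𝓡 k).prod (𝓡 l)) p (prj p w)

omit [InnerProductSpace ℝ E₂] [FiniteDimensional ℝ E₂] in
lemma inc_fst_ne (p : sphere (0 : E₁) 1 × sphere (0 : E₂) 1) : (inc p).1 ≠ 0 := sphere_ne_zero p.1

omit [InnerProductSpace ℝ E₁] [FiniteDimensional ℝ E₁] in
lemma inc_snd_ne (p : sphere (0 : E₁) 1 × sphere (0 : E₂) 1) : (inc p).2 ≠ 0 := sphere_ne_zero p.2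

omit [FiniteDimensional ℝ E₁] [FiniteDimensional ℝ E₂] in
lemma cht_inc (p : sphere (0 : E₁) 1 × sphere (0 : E₂) 1) :
    cht k l p (inc p) = extChartAt ((𝓡 k).prod (𝓡 l)) p p := by
  rw [cht, prj_inc]

lemma mem_source (p : sphere (0 : E₁) 1 × sphere (0 : E₂) 1) :
    ∀ᶠ w in 𝓝 (inc p), w.1 ≠ 0 ∧ w.2 ≠ 0 ∧ prj p w ∈ (extChartAt ((𝓡 k).prod (𝓡 l)) p).source := by
  have e1 : ∀ᶠ w : E₁ × E₂ in 𝓝 (inc p), w.1 ≠ 0 :=
    continuous_fst.continuousAt.eventually_ne (inc_fst_ne p)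
  have e2 : ∀ᶠ w : E₁ × E₂ in 𝓝 (inc p), w.2 ≠ 0 :=
    continuous_snd.continuousAt.eventually_ne (inc_snd_ne p)
  have hc : ContinuousAt (prj p) (inc p) :=
    (contMDiffAt_prj (k := k) (l := l) p (inc_fst_ne p) (inc_snd_ne p)).continuousAt
  have e3 := hc.eventually ((isOpen_extChartAt_source (I := (𝓡 k).prod (𝓡 l)) p).mem_nhds
    (by rw [prj_inc]; exact mem_extChartAt_source p))
  filter_upwards [e1, e2, e3] with w a b c
  exact ⟨a, b, c⟩

lemma contDiffAt_cht (p : sphere (0 : E₁) 1 × sphere (0 : E₂) 1) {w : E₁ × E₂} (h1 : w.1 ≠ 0)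
    (h2 : w.2 ≠ 0) (h3 : prj p w ∈ (extChartAt ((𝓡 k).prod (𝓡 l)) p).source) :
    ContDiffAt ℝ ∞ (cht k l p) w := by
  refine contMDiffAt_iff_contDiffAt.1 ?_
  refine ContMDiffAt.comp (I' := (𝓡 k).prod (𝓡 l)) w ?_ (contMDiffAt_prj (k := k) (l := l) p h1 h2)
  refine contMDiffAt_extChartAt' ?_
  rwa [extChartAt_source] at h3

omit [FiniteDimensional ℝ E₁] [FiniteDimensional ℝ E₂] in
lemma par_cht (p : sphere (0 : E₁) 1 × sphere (0 : E₂) 1) {w : E₁ × E₂} (h1 : w.1 ≠ 0)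
    (h2 : w.2 ≠ 0) (h3 : prj p w ∈ (extChartAt ((𝓡 k).prod (𝓡 l)) p).source) :
    par k l p (cht k l p w) = nrm w := by
  rw [par, cht, PartialEquiv.left_inv _ h3, inc_prj p h1 h2]

omit [FiniteDimensional ℝ E₁] [FiniteDimensional ℝ E₂] in
lemma cht_mem (p : sphere (0 : E₁) 1 × sphere (0 : E₂) 1) {w : E₁ × E₂}
    (h3 : prj p w ∈ (extChartAt ((𝓡 k).prod (𝓡 l)) p).source) :
    cht k l p w ∈ (extChartAt ((𝓡 k).prod (𝓡 l)) p).target :=
  PartialEquiv.map_source _ h3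

/-- near the point, the differential of `par ∘ cht` is the normalised projection. -/
lemma par_cht_fderiv (p : sphere (0 : E₁) 1 × sphere (0 : E₂) 1) :
    ∀ᶠ w in 𝓝 (inc p), ∀ a, fderiv ℝ (par k l p) (cht k l p w) (fderiv ℝ (cht k l p) w a)
      = (dn w.1 a.1, dn w.2 a.2) := by
  have h0 := mem_source (k := k) (l := l) p
  filter_upwards [h0.eventually_nhds] with w hw a
  have hw0 := hw.self_of_nhds
  obtain ⟨a1, a2, a3⟩ := hw0
  have e1 : (par k l p) ∘ (cht k l p) =ᶠ[𝓝 w] nrm := by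
    filter_upwards [hw] with w' hw'
    exact par_cht p hw'.1 hw'.2.1 hw'.2.2
  have e2 : HasFDerivAt ((par k l p) ∘ (cht k l p)) ((dn w.1).prodMap (dn w.2)) w :=
    (hasFDerivAt_nrm a1 a2).congr_of_eventuallyEq e1
  have e3 : HasFDerivAt ((par k l p) ∘ (cht k l p)) _ w :=
    ((contDiffAt_par p (cht_mem p a3)).differentiableAt (by simp)).hasFDerivAt.comp w
      ((contDiffAt_cht p a1 a2 a3).differentiableAt (by simp)).hasFDerivAt
  have e4 := e3.unique e2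
  have e5 := DFunLike.congr_fun e4 a
  exact e5

lemma cht_dinc (p : sphere (0 : E₁) 1 × sphere (0 : E₂) 1)
    (u : TangentSpace ((𝓡 k).prod (𝓡 l)) p) :
    fderiv ℝ (cht k l p) (inc p) (dinc p u) = u := by
  have h0 := (mem_source (k := k) (l := l) p).self_of_nhds
  have hc : ContMDiffAt 𝓘(ℝ, E₁ × E₂) 𝓘(ℝ, EuclideanSpace ℝ (Fin k) × EuclideanSpace ℝ (Fin l)) ∞
      (cht k l p) (inc p) := contMDiffAt_iff_contDiffAt.2 (contDiffAt_cht p h0.1 h0.2.1 h0.2.2)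
  have h1 := mfderiv_comp (I := (𝓡 k).prod (𝓡 l)) (I' := 𝓘(ℝ, E₁ × E₂))
    (I'' := 𝓘(ℝ, EuclideanSpace ℝ (Fin k) × EuclideanSpace ℝ (Fin l))) p
    (hc.mdifferentiableAt (by simp))
    ((contMDiff_inc (k := k) (l := l) (E₁ := E₁) (E₂ := E₂)).contMDiffAt.mdifferentiableAt (by simp))
  have h2 : (cht k l p) ∘ inc = extChartAt ((𝓡 k).prod (𝓡 l)) p := by
    funext q
    rw [Function.comp_apply, cht, prj_inc]
  rw [h2, mfderiv_eq_fderiv] at h1
  have h3 : mfderiv ((𝓡 k).prod (𝓡 l))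
      𝓘(ℝ, EuclideanSpace ℝ (Fin k) × EuclideanSpace ℝ (Fin l))
      (extChartAt ((𝓡 k).prod (𝓡 l)) p) p = ContinuousLinearMap.id ℝ _ :=
    mfderiv_extChartAt_self (I := (𝓡 k).prod (𝓡 l)) (x := p)
  rw [h3] at h1
  exact (DFunLike.congr_fun h1 u).symm

omit [FiniteDimensional ℝ E₁] [FiniteDimensional ℝ E₂] in
lemma coordMetric_eq
    {g : sphere (0 : E₁) 1 × sphere (0 : E₂) 1 → (E₁ × E₂) →L[ℝ] (E₁ × E₂) →L[ℝ] ℝ}
    {g' : Bundle.ContMDiffRiemannianMetric ((𝓡 k).prod (𝓡 l)) ∞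
        (EuclideanSpace ℝ (Fin k) × EuclideanSpace ℝ (Fin l))
        (fun x : sphere (0 : E₁) 1 × sphere (0 : E₂) 1 => TangentSpace ((𝓡 k).prod (𝓡 l)) x)}
    (hg' : ∀ p u v, g'.inner p u v = g p (dinc p u) (dinc p v))
    (p : sphere (0 : E₁) 1 × sphere (0 : E₂) 1)
    {y : EuclideanSpace ℝ (Fin k) × EuclideanSpace ℝ (Fin l)}
    (hy : y ∈ (extChartAt ((𝓡 k).prod (𝓡 l)) p).target)
    (a b : EuclideanSpace ℝ (Fin k) × EuclideanSpace ℝ (Fin l)) :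
    coordMetric g' p y a b = g ((extChartAt ((𝓡 k).prod (𝓡 l)) p).symm y)
      (fderiv ℝ (par k l p) y a) (fderiv ℝ (par k l p) y b) := by
  rw [fderiv_par p hy, fderiv_par p hy, ← hg']
  rfl

omit [FiniteDimensional ℝ E₁] [FiniteDimensional ℝ E₂] in
lemma metAt_coord
    {g : sphere (0 : E₁) 1 × sphere (0 : E₂) 1 → (E₁ × E₂) →L[ℝ] (E₁ × E₂) →L[ℝ] ℝ}
    (h1 : ContMDiff ((𝓡 k).prod (𝓡 l)) 𝓘(ℝ, (E₁ × E₂) →L[ℝ] (E₁ × E₂) →L[ℝ] ℝ) ∞ g)
    {g' : Bundle.ContMDiffRiemannianMetric ((𝓡 k).prod (𝓡 l)) ∞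
        (EuclideanSpace ℝ (Fin k) × EuclideanSpace ℝ (Fin l))
        (fun x : sphere (0 : E₁) 1 × sphere (0 : E₂) 1 => TangentSpace ((𝓡 k).prod (𝓡 l)) x)}
    (hg' : ∀ p u v, g'.inner p u v = g p (dinc p u) (dinc p v))
    (p : sphere (0 : E₁) 1 × sphere (0 : E₂) 1) :
    MetAt (coordMetric g' p) (extChartAt ((𝓡 k).prod (𝓡 l)) p p) where
  smooth := by
    have hy : extChartAt ((𝓡 k).prod (𝓡 l)) p p ∈ (extChartAt ((𝓡 k).prod (𝓡 l)) p).target :=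
      mem_extChartAt_target p
    have e1 : coordMetric g' p =ᶠ[𝓝 (extChartAt ((𝓡 k).prod (𝓡 l)) p p)] fun y =>
        (g ((extChartAt ((𝓡 k).prod (𝓡 l)) p).symm y)).bilinearComp (fderiv ℝ (par k l p) y)
          (fderiv ℝ (par k l p) y) := by
      filter_upwards [(isOpen_extChartAt_target (I := (𝓡 k).prod (𝓡 l)) p).mem_nhds hy] with y hy'
      refine ContinuousLinearMap.ext (fun a => ContinuousLinearMap.ext (fun b => ?_))
      rw [coordMetric_eq hg' p hy', ContinuousLinearMap.bilinearComp_apply]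
    refine ContDiffAt.congr_of_eventuallyEq ?_ e1
    refine contDiffAt_bilinearComp ?_ ?_
    · have := contMDiffAt_iff_contDiffAt.1 (h1.contMDiffAt.comp (extChartAt ((𝓡 k).prod (𝓡 l)) p p)
        (contMDiffAt_symm p hy))
      exact this.of_le (WithTop.coe_le_coe.2 le_top)
    · exact (contDiffAt_par p hy).fderiv_right (m := 2) (WithTop.coe_le_coe.2 le_top)
  symm := Eventually.of_forall (fun y u v => g'.symm _ _ _)
  pos := by
    have hy : extChartAt ((𝓡 k).prod (𝓡 l)) p p ∈ (extChartAt ((𝓡 k).prod (𝓡 l)) p).target :=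
      mem_extChartAt_target p
    filter_upwards [(isOpen_extChartAt_target (I := (𝓡 k).prod (𝓡 l)) p).mem_nhds hy] with y hy' u hu
    have h2 := isInvertible_mfderivWithin_extChartAt_symm (I := (𝓡 k).prod (𝓡 l)) hy'
    rw [ModelWithCorners.range_eq_univ, mfderivWithin_univ] at h2
    refine g'.pos _ _ (fun h0 => hu ?_)
    exact h2.injective (h0.trans (map_zero _).symm)

lemma contDiffAt_extM
    {g : sphere (0 : E₁) 1 × sphere (0 : E₂) 1 → (E₁ × E₂) →L[ℝ] (E₁ × E₂) →L[ℝ] ℝ}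
    (h1 : ContMDiff ((𝓡 k).prod (𝓡 l)) 𝓘(ℝ, (E₁ × E₂) →L[ℝ] (E₁ × E₂) →L[ℝ] ℝ) ∞ g)
    (p : sphere (0 : E₁) 1 × sphere (0 : E₂) 1) {z : E₁ × E₂} (a1 : z.1 ≠ 0) (a2 : z.2 ≠ 0) :
    ContDiffAt ℝ 2 (extM p g) z := by
  have b1 : ContDiffAt ℝ 2 (fun z : E₁ × E₂ => dl z.1 ∘L ContinuousLinearMap.fst ℝ E₁ E₂) z :=
    ((contDiffAt_dl a1).comp z contDiffAt_fst).clm_comp contDiffAt_const
  have b2 : ContDiffAt ℝ 2 (fun z : E₁ × E₂ => dl z.2 ∘L ContinuousLinearMap.snd ℝ E₁ E₂) z :=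
    ((contDiffAt_dl a2).comp z contDiffAt_snd).clm_comp contDiffAt_const
  unfold extM
  refine ((b1.smulRight b1).add (b2.smulRight b2)).add ?_
  refine contDiffAt_bilinearComp ?_ ?_
  · exact (contDiffAt_comp_toS₂ (r := ⊤) h1 p a1 a2).of_le (WithTop.coe_le_coe.2 le_top)
  · refine contDiffAt_of_apply (fun u => ?_)
    exact (((contDiffAt_dn a1).comp z contDiffAt_fst).clm_apply contDiffAt_const).prodMk
      (((contDiffAt_dn a2).comp z contDiffAt_snd).clm_apply contDiffAt_const)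

omit [FiniteDimensional ℝ E₁] [FiniteDimensional ℝ E₂] in
lemma nrm_inc (q : sphere (0 : E₁) 1 × sphere (0 : E₂) 1) : nrm (inc q) = inc q := by
  have h1 : ‖(q.1 : E₁)‖ = 1 := mem_sphere_zero_iff_norm.1 q.1.2
  have h2 : ‖(q.2 : E₂)‖ = 1 := mem_sphere_zero_iff_norm.1 q.2.2
  simp [nrm, inc, h1, h2]

lemma dinc_fix (p : sphere (0 : E₁) 1 × sphere (0 : E₂) 1)
    (u : TangentSpace ((𝓡 k).prod (𝓡 l)) p) :
    (dn (inc p).1 (dinc p u).1, dn (inc p).2 (dinc p u).2) = dinc p u := by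
  have hn : HasFDerivAt (nrm : E₁ × E₂ → E₁ × E₂) ((dn (inc p).1).prodMap (dn (inc p).2)) (inc p) :=
    hasFDerivAt_nrm (inc_fst_ne p) (inc_snd_ne p)
  have h1 := mfderiv_comp (I := (𝓡 k).prod (𝓡 l)) (I' := 𝓘(ℝ, E₁ × E₂))
    (I'' := 𝓘(ℝ, E₁ × E₂)) p (g := (nrm : E₁ × E₂ → E₁ × E₂))
    hn.differentiableAt.mdifferentiableAt
    ((contMDiff_inc (k := k) (l := l) (E₁ := E₁) (E₂ := E₂)).contMDiffAt.mdifferentiableAt (by simp))
  have h2 : (nrm : E₁ × E₂ → E₁ × E₂) ∘ inc = inc := by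
    funext q
    exact nrm_inc q
  rw [h2, mfderiv_eq_fderiv, hn.fderiv] at h1
  exact (DFunLike.congr_fun h1 u).symm

/-- the tangent vectors are orthogonal to the position. -/
lemma dinc_dl (p : sphere (0 : E₁) 1 × sphere (0 : E₂) 1)
    (u : TangentSpace ((𝓡 k).prod (𝓡 l)) p) :
    dl (inc p).1 (dinc p u).1 = 0 ∧ dl (inc p).2 (dinc p u).2 = 0 := by
  rw [← dinc_fix, dl_apply, dl_apply, inner_dn _ _ (inc_fst_ne p), inner_dn _ _ (inc_snd_ne p)]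
  simp

omit [FiniteDimensional ℝ E₁] in
/-- `log |x|` has derivative `dl x`. -/
lemma hasFDerivAt_log {x : E₁} (hx : x ≠ 0) : HasFDerivAt (fun x : E₁ => Real.log ‖x‖) (dl x) x := by
  have hn : ‖x‖ ^ 2 ≠ 0 := by simpa using hx
  have h1 : HasFDerivAt (fun z : E₁ => (1 / 2 : ℝ) * Real.log (‖z‖ ^ 2)) _ x :=
    (((HasStrictFDerivAt.hasFDerivAt (hasStrictFDerivAt_norm_sq x))).log hn).const_mul (1 / 2 : ℝ)
  have e : (fun x : E₁ => Real.log ‖x‖) = fun z : E₁ => (1 / 2 : ℝ) * Real.log (‖z‖ ^ 2) := by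
    funext z
    rw [Real.log_pow]
    push_cast
    ring
  rw [e]
  refine h1.congr_fderiv ?_
  ext u
  simp [dl_apply]
  ring

/-- the submersion to the chart times the line. -/
noncomputable def sub (k l : ℕ) [Fact (finrank ℝ E₁ = k + 1)] [Fact (finrank ℝ E₂ = l + 1)]
    (p : sphere (0 : E₁) 1 × sphere (0 : E₂) 1) (w : E₁ × E₂) :
    (EuclideanSpace ℝ (Fin k) × EuclideanSpace ℝ (Fin l)) × ℝ := (cht k l p w, Real.log ‖w.1‖)

lemma fderiv_sub (p : sphere (0 : E₁) 1 × sphere (0 : E₂) 1) {w : E₁ × E₂} (h1 : w.1 ≠ 0)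
    (h2 : w.2 ≠ 0) (h3 : prj p w ∈ (extChartAt ((𝓡 k).prod (𝓡 l)) p).source) (a : E₁ × E₂) :
    fderiv ℝ (sub k l p) w a = (fderiv ℝ (cht k l p) w a, dl w.1 a.1) := by
  have a1 := ((contDiffAt_cht p h1 h2 h3).differentiableAt (by simp)).hasFDerivAt
  have a2 : HasFDerivAt (fun w : E₁ × E₂ => Real.log ‖w.1‖)
      (dl w.1 ∘L ContinuousLinearMap.fst ℝ E₁ E₂) w :=
    HasFDerivAt.comp (g := fun x : E₁ => Real.log ‖x‖) w (hasFDerivAt_log h1) hasFDerivAt_fst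
  have a3 : HasFDerivAt (sub k l p) _ w := a1.prodMk a2
  rw [a3.fderiv]
  rfl

lemma contDiffAt_sub (p : sphere (0 : E₁) 1 × sphere (0 : E₂) 1) {w : E₁ × E₂} (h1 : w.1 ≠ 0)
    (h2 : w.2 ≠ 0) (h3 : prj p w ∈ (extChartAt ((𝓡 k).prod (𝓡 l)) p).source) :
    ContDiffAt ℝ 3 (sub k l p) w := by
  refine ((contDiffAt_cht p h1 h2 h3).of_le (WithTop.coe_le_coe.2 le_top)).prodMk ?_
  exact ((contDiffAt_norm ℝ h1).comp w contDiffAt_fst).log (norm_ne_zero_iff.2 h1)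

lemma fderiv_cht_par (p : sphere (0 : E₁) 1 × sphere (0 : E₂) 1)
    (v : EuclideanSpace ℝ (Fin k) × EuclideanSpace ℝ (Fin l)) :
    fderiv ℝ (cht k l p) (inc p)
      (fderiv ℝ (par k l p) (extChartAt ((𝓡 k).prod (𝓡 l)) p p) v) = v := by
  have h0 := (mem_source (k := k) (l := l) p).self_of_nhds
  have hy : extChartAt ((𝓡 k).prod (𝓡 l)) p p ∈ (extChartAt ((𝓡 k).prod (𝓡 l)) p).target :=
    mem_extChartAt_target p
  have hp : par k l p (extChartAt ((𝓡 k).prod (𝓡 l)) p p) = inc p := by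
    rw [par, extChartAt_to_inv]
  have e1 : (cht k l p) ∘ (par k l p) =ᶠ[𝓝 (extChartAt ((𝓡 k).prod (𝓡 l)) p p)] id := by
    filter_upwards [(isOpen_extChartAt_target (I := (𝓡 k).prod (𝓡 l)) p).mem_nhds hy] with y hy'
    rw [Function.comp_apply, cht, par, prj_inc, PartialEquiv.right_inv _ hy', id_eq]
  have e2 : HasFDerivAt ((cht k l p) ∘ (par k l p)) (ContinuousLinearMap.id ℝ _)
      (extChartAt ((𝓡 k).prod (𝓡 l)) p p) := (hasFDerivAt_id _).congr_of_eventuallyEq e1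
  have e4 : HasFDerivAt (cht k l p) (fderiv ℝ (cht k l p) (inc p))
      (par k l p (extChartAt ((𝓡 k).prod (𝓡 l)) p p)) := by
    rw [hp]
    exact ((contDiffAt_cht p h0.1 h0.2.1 h0.2.2).differentiableAt (by simp)).hasFDerivAt
  have e3 : HasFDerivAt ((cht k l p) ∘ (par k l p)) _ (extChartAt ((𝓡 k).prod (𝓡 l)) p p) :=
    e4.comp _ ((contDiffAt_par p hy).differentiableAt (by simp)).hasFDerivAt
  exact DFunLike.congr_fun (e3.unique e2) v

lemma fderiv_cht_radial (p : sphere (0 : E₁) 1 × sphere (0 : E₂) 1) {a : E₁ × E₂}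
    (h1 : dn (inc p).1 a.1 = 0) (h2 : dn (inc p).2 a.2 = 0) :
    fderiv ℝ (cht k l p) (inc p) a = 0 := by
  have e1 := (par_cht_fderiv (k := k) (l := l) p).self_of_nhds a
  rw [h1, h2, cht_inc] at e1
  rw [← fderiv_cht_par p (fderiv ℝ (cht k l p) (inc p) a), e1]
  exact map_zero _

/-- the values of the extended metric. -/
lemma extM_eq {g : sphere (0 : E₁) 1 × sphere (0 : E₂) 1 → (E₁ × E₂) →L[ℝ] (E₁ × E₂) →L[ℝ] ℝ}
    {g' : Bundle.ContMDiffRiemannianMetric ((𝓡 k).prod (𝓡 l)) ∞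
        (EuclideanSpace ℝ (Fin k) × EuclideanSpace ℝ (Fin l))
        (fun x : sphere (0 : E₁) 1 × sphere (0 : E₂) 1 => TangentSpace ((𝓡 k).prod (𝓡 l)) x)}
    (hg' : ∀ p u v, g'.inner p u v = g p (dinc p u) (dinc p v))
    (p : sphere (0 : E₁) 1 × sphere (0 : E₂) 1) :
    ∀ᶠ w in 𝓝 (inc p), ∀ a b, extM p g w a b
      = line (coordMetric g' p) (sub k l p w) (fderiv ℝ (sub k l p) w a) (fderiv ℝ (sub k l p) w b)
        + (dl w.2 ∘L ContinuousLinearMap.snd ℝ E₁ E₂) a * (dl w.2 ∘L ContinuousLinearMap.snd ℝ E₁ E₂) b := by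
  filter_upwards [mem_source (k := k) (l := l) p, par_cht_fderiv (k := k) (l := l) p] with w hw h2 a b
  obtain ⟨a1, a2, a3⟩ := hw
  have e1 : (extChartAt ((𝓡 k).prod (𝓡 l)) p).symm (cht k l p w) = prj p w := by
    rw [cht, PartialEquiv.left_inv _ a3]
  rw [extM_apply, line_apply, fderiv_sub p a1 a2 a3, fderiv_sub p a1 a2 a3]
  simp only [sub]
  rw [coordMetric_eq hg' p (cht_mem p a3), h2, h2, e1]
  simp only [prj, ContinuousLinearMap.comp_apply, ContinuousLinearMap.coe_snd']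
  ring

omit [FiniteDimensional ℝ E₁] in
lemma fderiv_beta (p : sphere (0 : E₁) 1 × sphere (0 : E₂) 1) (a b : E₁ × E₂) :
    fderiv ℝ (fun w : E₁ × E₂ => dl w.2 ∘L ContinuousLinearMap.snd ℝ E₁ E₂) (inc p) a b
      = (‖(inc p).2‖ ^ 2)⁻¹ * ⟪a.2, b.2⟫
        - 2 * ⟪(inc p).2, a.2⟫ * ((‖(inc p).2‖ ^ 2)⁻¹) ^ 2 * ⟪(inc p).2, b.2⟫ := by
  rw [← fderiv_dl (inc_snd_ne p)]
  have hc : DifferentiableAt ℝ (dl : E₂ → E₂ →L[ℝ] ℝ) (inc p).2 :=
    (contDiffAt_dl (inc_snd_ne p) (k := 1)).differentiableAt (by norm_num)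
  have h1 : HasFDerivAt (fun w : E₁ × E₂ => dl w.2)
      ((fderiv ℝ dl (inc p).2) ∘L ContinuousLinearMap.snd ℝ E₁ E₂) (inc p) :=
    HasFDerivAt.comp (g := fun y : E₂ => dl y) (inc p) hc.hasFDerivAt hasFDerivAt_snd
  have h2 := h1.clm_comp (hasFDerivAt_const (ContinuousLinearMap.snd ℝ E₁ E₂) (inc p))
  have h3 := hc.hasFDerivAt.clm_apply (hasFDerivAt_const b.2 (inc p).2)
  rw [h2.fderiv, h3.fderiv]
  simp

lemma aux
    {g : sphere (0 : E₁) 1 × sphere (0 : E₂) 1 → (E₁ × E₂) →L[ℝ] (E₁ × E₂) →L[ℝ] ℝ}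
    (h1 : ContMDiff ((𝓡 k).prod (𝓡 l)) 𝓘(ℝ, (E₁ × E₂) →L[ℝ] (E₁ × E₂) →L[ℝ] ℝ) ∞ g)
    (h2 : ∀ p u v, g p u v = g p v u)
    (h3 : ∀ (p : sphere (0 : E₁) 1 × sphere (0 : E₂) 1) (u : E₁ × E₂), ⟪(p.1 : E₁), u.1⟫ = 0 →
      ⟪(p.2 : E₂), u.2⟫ = 0 → u ≠ 0 → 0 < g p u u)
    {g' : Bundle.ContMDiffRiemannianMetric ((𝓡 k).prod (𝓡 l)) ∞
        (EuclideanSpace ℝ (Fin k) × EuclideanSpace ℝ (Fin l))
        (fun x : sphere (0 : E₁) 1 × sphere (0 : E₂) 1 => TangentSpace ((𝓡 k).prod (𝓡 l)) x)}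
    (hg' : ∀ p u v, g'.inner p u v = g p (dinc p u) (dinc p v))
    (p : sphere (0 : E₁) 1 × sphere (0 : E₂) 1)
    (u v : EuclideanSpace ℝ (Fin k) × EuclideanSpace ℝ (Fin l)) :
    secCurv (coordMetric g' p) (extChartAt ((𝓡 k).prod (𝓡 l)) p p) u v
      = secCurv (extM p g) (inc p) (dinc (k := k) (l := l) p u) (dinc (k := k) (l := l) p v) := by
  have m1 : MetAt (coordMetric g' p) (extChartAt ((𝓡 k).prod (𝓡 l)) p p) := metAt_coord h1 hg' p
  have m2 : MetAt (extM p g) (inc p) := metAt_extM p (inc_fst_ne p) (inc_snd_ne p)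
    (contDiffAt_extM h1 p (inc_fst_ne p) (inc_snd_ne p)) (fun q u v _ _ _ _ => h2 q u v)
    (fun q u a b c => h3 q u a b c)
  have h0 := (mem_source (k := k) (l := l) p).self_of_nhds
  have hsub : sub k l p (inc p)
      = (extChartAt ((𝓡 k).prod (𝓡 l)) p p, Real.log ‖(inc p).1‖) := by rw [sub, cht_inc]
  have hd : ∀ u : EuclideanSpace ℝ (Fin k) × EuclideanSpace ℝ (Fin l),
      fderiv ℝ (sub k l p) (inc p) (dinc (k := k) (l := l) p u) = (u, 0) := by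
    intro u
    rw [fderiv_sub p h0.1 h0.2.1 h0.2.2]
    exact Prod.ext (cht_dinc p u) (dinc_dl p u).1
  have m3 : MetAt (line (coordMetric g' p)) (sub k l p (inc p)) :=
    metAt_line (by rw [hsub]; exact m1)
  have hb : ContDiffAt ℝ 2 (fun w : E₁ × E₂ => dl w.2 ∘L ContinuousLinearMap.snd ℝ E₁ E₂) (inc p) :=
    ((contDiffAt_dl (inc_snd_ne p)).comp (inc p) contDiffAt_snd).clm_comp contDiffAt_const
  have hs : ∀ (a' : (EuclideanSpace ℝ (Fin k) × EuclideanSpace ℝ (Fin l)) × ℝ) (s : ℝ),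
      ∃ a, fderiv ℝ (sub k l p) (inc p) a = a' ∧
        (dl (inc p).2 ∘L ContinuousLinearMap.snd ℝ E₁ E₂) a = s := by
    intro a' s
    have r1 : fderiv ℝ (cht k l p) (inc p) (a'.2 • (inc p).1, s • (inc p).2) = 0 :=
      fderiv_cht_radial p
        (by rw [map_smul, dn_self _ (inc_fst_ne p), smul_zero])
        (by rw [map_smul, dn_self _ (inc_snd_ne p), smul_zero])
    refine ⟨dinc (k := k) (l := l) p a'.1 + (a'.2 • (inc p).1, s • (inc p).2), ?_, ?_⟩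
    · rw [map_add, hd, fderiv_sub p h0.1 h0.2.1 h0.2.2, r1, map_smul, dl_self _ (inc_fst_ne p)]
      exact Prod.ext (add_zero _) (by simp)
    · rw [map_add]
      have r2 : (dl (inc p).2 ∘L ContinuousLinearMap.snd ℝ E₁ E₂) (dinc (k := k) (l := l) p a'.1) = 0 :=
        (dinc_dl p _).2
      rw [r2]
      simp [dl_self _ (inc_snd_ne p)]
  have hn : num (extM p g) (inc p) (dinc (k := k) (l := l) p u) (dinc (k := k) (l := l) p v)
      = num (coordMetric g' p) (extChartAt ((𝓡 k).prod (𝓡 l)) p p) u v := by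
    have key := num_submersion (G := extM p g) (G' := line (coordMetric g' p)) (φ := sub k l p)
      (z := inc p) (β := fun w : E₁ × E₂ => dl w.2 ∘L ContinuousLinearMap.snd ℝ E₁ E₂)
      (contDiffAt_sub p h0.1 h0.2.1 h0.2.2) hb m3 m2 hs (extM_eq hg' p)
      (u := dinc (k := k) (l := l) p u) (v := dinc (k := k) (l := l) p v)
      (dinc_dl p u).2 (dinc_dl p v).2
    rw [key, hd, hd, hsub, num_line (z := (extChartAt ((𝓡 k).prod (𝓡 l)) p p,
      Real.log ‖(inc p).1‖)) m1, fderiv_beta, fderiv_beta,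
      real_inner_comm (dinc (k := k) (l := l) p u).2 (dinc (k := k) (l := l) p v).2]
    ring
  have hv : ∀ u v : EuclideanSpace ℝ (Fin k) × EuclideanSpace ℝ (Fin l),
      extM p g (inc p) (dinc (k := k) (l := l) p u) (dinc (k := k) (l := l) p v)
        = coordMetric g' p (extChartAt ((𝓡 k).prod (𝓡 l)) p p) u v := by
    intro u v
    have e1 := (extM_eq hg' p).self_of_nhds (dinc (k := k) (l := l) p u)
      (dinc (k := k) (l := l) p v)
    rw [e1, hd, hd, hsub, line_apply]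
    have r2 : (dl (inc p).2 ∘L ContinuousLinearMap.snd ℝ E₁ E₂) (dinc (k := k) (l := l) p u) = 0 :=
      (dinc_dl p _).2
    rw [r2]
    simp
  rw [secCurv, secCurv, G_Riem m1, G_Riem m2, hn, hv, hv, hv]

/-- **The sectional curvature in the preferred chart.** -/
theorem sectionalCurvature_eq
    (g : sphere (0 : E₁) 1 × sphere (0 : E₂) 1 → (E₁ × E₂) →L[ℝ] (E₁ × E₂) →L[ℝ] ℝ)
    (h1 : ContMDiff ((𝓡 k).prod (𝓡 l)) 𝓘(ℝ, (E₁ × E₂) →L[ℝ] (E₁ × E₂) →L[ℝ] ℝ) ∞ g)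
    (h2 : ∀ p u v, g p u v = g p v u)
    (h3 : ∀ (p : sphere (0 : E₁) 1 × sphere (0 : E₂) 1) (u : E₁ × E₂), ⟪(p.1 : E₁), u.1⟫ = 0 →
      ⟪(p.2 : E₂), u.2⟫ = 0 → u ≠ 0 → 0 < g p u u)
    (g' : Bundle.ContMDiffRiemannianMetric ((𝓡 k).prod (𝓡 l)) ∞
        (EuclideanSpace ℝ (Fin k) × EuclideanSpace ℝ (Fin l))
        (fun x : sphere (0 : E₁) 1 × sphere (0 : E₂) 1 => TangentSpace ((𝓡 k).prod (𝓡 l)) x))
    (hg' : ∀ p u v, g'.inner p u v = g p (dinc p u) (dinc p v))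
    (p : sphere (0 : E₁) 1 × sphere (0 : E₂) 1) (u v : TangentSpace ((𝓡 k).prod (𝓡 l)) p) :
    sectionalCurvature g' p u v = sectional g p (dinc p u) (dinc p v) :=
  aux h1 h2 h3 hg' p u v

/-- `dinc p` is injective with tangential image. -/
theorem dinc_prop (p : sphere (0 : E₁) 1 × sphere (0 : E₂) 1) :
    Function.Injective (dinc (k := k) (l := l) p) ∧
    ∀ u, ⟪(p.1 : E₁), (dinc (k := k) (l := l) p u).1⟫ = 0 ∧
      ⟪(p.2 : E₂), (dinc (k := k) (l := l) p u).2⟫ = 0 := by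
  refine ⟨fun u v huv => ?_, fun u => ?_⟩
  · have h1 := cht_dinc p u
    rw [huv, cht_dinc] at h1
    exact h1.symm
  · rw [← dinc_fix]
    exact ⟨inner_dn _ _ (inc_fst_ne p), inner_dn _ _ (inc_snd_ne p)⟩

end

end Pool.Agent.Helper8.HP.BR2
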