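import Pool.Agent.Helper20.HP.KKDefs
import Pool.Agent.Helper20.HP.Jet

/-! # HOPF-Q5b: the covariant second derivative along curves -/

open Filter Metric Module Set
open scoped Topology ContDiff RealInnerProductSpace Manifold

set_option maxSynthPendingDepth 3

namespace Pool.Agent.Helper8.HP
open Pool.Agent.Helper20.PC Pool.Agent.Helper20.HP

section
variable {B W : Type*} [NormedAddCommGroup B] [NormedSpace ℝ B] [NormedAddCommGroup W]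
    [NormedSpace ℝ W]

theorem dN_eq {N : B → W →L[ℝ] W →L[ℝ] ℝ} {x : B} (h : DifferentiableAt ℝ N x) (ζ : B) (a b : W) :
    dN N x ζ a b = fderiv ℝ N x ζ a b := by
  unfold dN
  have h1 := (h.hasFDerivAt.clm_apply (hasFDerivAt_const a x)).clm_apply
      (hasFDerivAt_const b x)
  rw [h1.fderiv]
  simp

theorem ddN_eq {N : B → W →L[ℝ] W →L[ℝ] ℝ} {x : B} (h : ContDiffAt ℝ 2 N x) (ξ ζ : B) (a b : W) :
    ddN N x ξ ζ a b = fderiv ℝ (fderiv ℝ N) x ξ ζ a b := by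
  unfold ddN
  have h0 : ∀ᶠ x' in 𝓝 x, DifferentiableAt ℝ N x' := by
    filter_upwards [h.eventually (by simp)] with x' hx'
    exact hx'.differentiableAt (by norm_num)
  have h1 : (fun x' => dN N x' ζ a b) =ᶠ[𝓝 x] fun x' => fderiv ℝ N x' ζ a b := by
    filter_upwards [h0] with x' hx'
    exact dN_eq hx' ζ a b
  have h2 : DifferentiableAt ℝ (fderiv ℝ N) x :=
    (h.fderiv_right (m := 1) (by norm_num)).differentiableAt (by norm_num)
  have h3 := ((h2.hasFDerivAt.clm_apply (hasFDerivAt_const ζ x)).clm_apply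
      (hasFDerivAt_const a x)).clm_apply (hasFDerivAt_const b x)
  rw [h1.fderiv_eq, h3.fderiv]
  simp

theorem jetN {N : B → W →L[ℝ] W →L[ℝ] ℝ} {x : B}
    (hN : ContDiffAt ℝ 2 N x) (ζ Y : B) (a b p q p' q' : W) {X : ℝ → B} {P Q : ℝ → W} {X' : ℝ → B}
    {P' Q' : ℝ → W}
    (hX0 : X 0 = x) (hX1 : ∀ᶠ t in 𝓝 (0 : ℝ), HasDerivAt X (X' t) t) (hX2 : X' 0 = ζ)
    (hX3 : HasDerivAt X' Y 0)
    (hP0 : P 0 = a) (hP1 : ∀ᶠ t in 𝓝 (0 : ℝ), HasDerivAt P (P' t) t) (hP2 : P' 0 = p)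
    (hP3 : HasDerivAt P' p' 0)
    (hQ0 : Q 0 = b) (hQ1 : ∀ᶠ t in 𝓝 (0 : ℝ), HasDerivAt Q (Q' t) t) (hQ2 : Q' 0 = q)
    (hQ3 : HasDerivAt Q' q' 0) :
    HasJet (fun t => N (X t) (P t) (Q t)) ⟨N x a b, dN N x ζ a b + N x p b + N x a q,
      ddN N x ζ ζ a b + dN N x Y a b + 2 * dN N x ζ p b + 2 * dN N x ζ a q + N x p' b
        + 2 * N x p q + N x a q'⟩ := by
  subst hX0
  have hXd : HasDerivAt X ζ 0 := hX2 ▸ hX1.self_of_nhds
  have hPd : HasDerivAt P p 0 := hP2 ▸ hP1.self_of_nhds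
  have hQd : HasDerivAt Q q 0 := hQ2 ▸ hQ1.self_of_nhds
  have h0 : ∀ᶠ x' in 𝓝 (X 0), DifferentiableAt ℝ N x' := by
    filter_upwards [hN.eventually (by simp)] with x' hx'
    exact hx'.differentiableAt (by norm_num)
  have h0t : ∀ᶠ t in 𝓝 (0 : ℝ), DifferentiableAt ℝ N (X t) := hXd.continuousAt.eventually h0
  have hd0 : DifferentiableAt ℝ N (X 0) := h0.self_of_nhds
  have h2 : DifferentiableAt ℝ (fderiv ℝ N) (X 0) :=
    (hN.fderiv_right (m := 1) (by norm_num)).differentiableAt (by norm_num)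
  have hG : HasDerivAt (fun t => fderiv ℝ N (X t)) (fderiv ℝ (fderiv ℝ N) (X 0) ζ) 0 :=
    h2.hasFDerivAt.comp_hasDerivAt (0 : ℝ) hXd
  have hNX : HasDerivAt (fun t => N (X t)) (fderiv ℝ N (X 0) ζ) 0 :=
    hd0.hasFDerivAt.comp_hasDerivAt (0 : ℝ) hXd
  refine ⟨by simp only [hP0, hQ0], fun t => (fderiv ℝ N (X t) (X' t)) (P t) (Q t)
    + N (X t) (P' t) (Q t) + N (X t) (P t) (Q' t), ?_, ?_, ?_⟩
  · filter_upwards [hX1, hP1, hQ1, h0t] with t hx hp hq hn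
    have e1 : HasDerivAt (fun t => N (X t)) (fderiv ℝ N (X t) (X' t)) t :=
      hn.hasFDerivAt.comp_hasDerivAt t hx
    exact (e1.clm_apply hp).clm_apply hq
  · simp only [hX2, hP0, hQ0, hP2, hQ2]
    rw [dN_eq hd0]
  · have e1 := (((hG.clm_apply hX3).clm_apply hPd).clm_apply hQd)
    have e2 := ((hNX.clm_apply hP3).clm_apply hQd)
    have e3 := ((hNX.clm_apply hPd).clm_apply hQ3)
    refine ((e1.add e2).add e3).congr_deriv ?_
    simp only [hX2, hP0, hQ0, hP2, hQ2]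
    rw [dN_eq hd0, dN_eq hd0, dN_eq hd0, ddN_eq hN]
    simp only [add_apply]
    ring

end

section
variable {B 𝔸 : Type*} [NormedAddCommGroup B] [NormedSpace ℝ B] [NormedDivisionRing 𝔸]
    [NormedAlgebra ℝ 𝔸]

theorem cN2_curve {h : B → B →L[ℝ] B →L[ℝ] ℝ} {N : B → 𝔸 →L[ℝ] 𝔸 →L[ℝ] ℝ} {A : B → B →L[ℝ] 𝔸} {x : B}
    (hN : ContDiffAt ℝ 2 N x) (ζ : B) (a b : 𝔸) {X : ℝ → B} {P Q : ℝ → 𝔸} {X' : ℝ → B} {P' Q' : ℝ → 𝔸}
    (hX0 : X 0 = x) (hX1 : ∀ᶠ t in 𝓝 (0 : ℝ), HasDerivAt X (X' t) t) (hX2 : X' 0 = ζ)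
    (hX3 : HasDerivAt X' (- Gam h x ζ ζ) 0)
    (hP0 : P 0 = a) (hP1 : ∀ᶠ t in 𝓝 (0 : ℝ), HasDerivAt P (P' t) t) (hP2 : P' 0 = - br (A x ζ) a)
    (hP3 : HasDerivAt P' (br (A x ζ) (br (A x ζ) a) - br (fderiv ℝ A x ζ ζ - A x (Gam h x ζ ζ)) a) 0)
    (hQ0 : Q 0 = b) (hQ1 : ∀ᶠ t in 𝓝 (0 : ℝ), HasDerivAt Q (Q' t) t) (hQ2 : Q' 0 = - br (A x ζ) b)
    (hQ3 : HasDerivAt Q' (br (A x ζ) (br (A x ζ) b) - br (fderiv ℝ A x ζ ζ - A x (Gam h x ζ ζ)) b) 0) :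
    HasJet (fun t => N (X t) (P t) (Q t)) ⟨N x a b, cN1 N A x ζ a b, cN2 h N A x ζ ζ a b⟩ := by
  have key := jetN hN ζ (- Gam h x ζ ζ) a b _ _ _ _ hX0 hX1 hX2 hX3 hP0 hP1 hP2 hP3 hQ0 hQ1 hQ2 hQ3
  have hd : DifferentiableAt ℝ N x := hN.differentiableAt (by norm_num)
  have hbr : ∀ u v c : 𝔸, br (u - v) c = br u c - br v c := by
    intro u v c
    unfold br
    noncomm_ring
  have hs : ∀ c : 𝔸, s2 A x ζ ζ c = br (A x ζ) (br (A x ζ) c) - br (fderiv ℝ A x ζ ζ) c := by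
    intro c
    unfold s2
    have h1 : (1 / 2 : ℝ) • (br (A x ζ) (br (A x ζ) c) + br (A x ζ) (br (A x ζ) c)) =
        br (A x ζ) (br (A x ζ) c) := by
      rw [← two_smul ℝ, smul_smul]
      norm_num
    have h2 : (1 / 2 : ℝ) • br (fderiv ℝ A x ζ ζ + fderiv ℝ A x ζ ζ) c =
        br (fderiv ℝ A x ζ ζ) c := by
      have : br (fderiv ℝ A x ζ ζ + fderiv ℝ A x ζ ζ) c =
          (2 : ℝ) • br (fderiv ℝ A x ζ ζ) c := by
        rw [two_smul]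
        unfold br
        noncomm_ring
      rw [this, smul_smul]
      norm_num
    rw [h1, h2]
  have hn : dN N x (- Gam h x ζ ζ) a b = - dN N x (Gam h x ζ ζ) a b := by
    unfold dN
    rw [map_neg]
  have hl : ∀ u v : 𝔸, dN N x ζ (-u) v = - dN N x ζ u v := by
    intro u v
    rw [dN_eq hd, dN_eq hd]
    simp
  have hr : ∀ u v : 𝔸, dN N x ζ u (-v) = - dN N x ζ u v := by
    intro u v
    rw [dN_eq hd, dN_eq hd]
    simp
  refine (congrArg (HasJet fun t => N (X t) (P t) (Q t)) ?_).mp key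
  ext
  · rfl
  · simp only [cN1, map_neg, neg_apply]
    ring
  · simp only [cN2, cN1, hs, hn, hl, hr, hbr, map_neg, map_sub, neg_apply, sub_apply]
    ring

end

end Pool.Agent.Helper8.HP
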